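import Pool.Agent.Y217.HK.Inst

/-! Project HK: measurable functions invariant under tail equality are constant on a residual set. -/

set_option autoImplicit false

namespace Pool.Agent.Y38.HK

open MeasureTheory Filter Topology Set Pool.Agent.Y217.HK

theorem key (A : ℕ → Type) [∀ i, TopologicalSpace (A i)] [BaireSpace (∀ i, A i)]
    [MeasurableSpace (∀ i, A i)] [BorelSpace (∀ i, A i)]
    (hom : ∀ i (a b : A i), ∃ h : A i ≃ₜ A i, h a = b)
    (S : Set (∀ i, A i)) (hS : MeasurableSet S) (hT : ∀ x y, Tl x y → (x ∈ S ↔ y ∈ S)) :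
    S ∈ residual (∀ i, A i) ∨ Sᶜ ∈ residual (∀ i, A i) := by
  classical
  obtain ⟨U, hU, hSU⟩ := hS.residualEq_isOpen
  obtain ⟨V, hV, hSV⟩ := hS.compl.residualEq_isOpen
  rw [Filter.eventuallyEq_set] at hSU hSV
  by_cases hU0 : U = ∅
  · right
    filter_upwards [hSU] with x hx
    rw [hU0] at hx
    simpa using hx
  by_cases hV0 : V = ∅
  · left
    filter_upwards [hSV] with x hx
    rw [hV0] at hx
    simpa using hx
  exfalso
  obtain ⟨u, hu⟩ := nonempty_iff_ne_empty.2 hU0
  obtain ⟨v, hv⟩ := nonempty_iff_ne_empty.2 hV0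
  obtain ⟨I, w, hw1, hw2⟩ := isOpen_pi_iff.1 hV v hv
  choose g hg using fun i => hom i (u i) (v i)
  let h0 : ∀ i, A i ≃ₜ A i := fun i => if i ∈ I then g i else Homeomorph.refl (A i)
  let h : (∀ i, A i) ≃ₜ (∀ i, A i) := Homeomorph.piCongrRight h0
  have hh : ∀ x i, h x i = h0 i (x i) := fun x i => rfl
  have hhu : h u ∈ V := by
    refine hw2 ?_
    intro i hi
    have hi' : i ∈ I := hi
    rw [hh]
    simp only [h0, if_pos hi']
    rw [hg]
    exact (hw1 i hi').2
  have htl : ∀ x, Tl x (h x) := by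
    intro x
    obtain ⟨N, hN⟩ := I.bddAbove
    refine ⟨N + 1, fun n hn => ?_⟩
    have : n ∉ I := fun h1 => by
      have := hN h1
      omega
    rw [hh]
    simp only [h0, if_neg this]
    rfl
  have hO : IsOpen (U ∩ h ⁻¹' V) := hU.inter (hV.preimage h.continuous)
  have hne : (U ∩ h ⁻¹' V).Nonempty := ⟨u, hu, hhu⟩
  have h1 : ∀ᶠ x in residual (∀ i, A i), (h x ∈ Sᶜ ↔ h x ∈ V) :=
    (tendsto_residual_of_isOpenMap h.continuous h.isOpenMap).eventually hSV
  have h2 : ∀ᶠ x in residual (∀ i, A i), x ∉ U ∩ h ⁻¹' V := by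
    filter_upwards [hSU, h1] with x hx1 hx2
    rintro ⟨hx3, hx4⟩
    have hx5 : x ∈ S := hx1.2 hx3
    have hx6 : h x ∈ Sᶜ := hx2.2 hx4
    exact hx6 ((hT x (h x) (htl x)).1 hx5)
  have h3 : Dense {x | x ∉ U ∩ h ⁻¹' V} := dense_of_mem_residual h2
  obtain ⟨x, hx1, hx2⟩ := h3.inter_open_nonempty _ hO hne
  exact hx2 hx1

theorem erg : Pool.Agent.Y217.HK.JErg := by
  intro A _ _ _ _ hom φ hφ hT
  have key' : ∀ n : ℕ, ∃ c : Bool, ∀ᶠ x in residual (∀ i, A i), φ x n = c := by
    intro n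
    have hm : MeasurableSet {x : ∀ i, A i | φ x n = true} := by
      have h1 : Measurable fun x => φ x n := (measurable_pi_apply n).comp hφ
      exact h1 (measurableSet_singleton true)
    rcases key A hom {x | φ x n = true} hm (by
      intro x y hxy
      simp only [mem_setOf_eq]
      rw [hT x y hxy]) with h | h
    · exact ⟨true, h⟩
    · refine ⟨false, ?_⟩
      filter_upwards [h] with x hx
      simpa using hx
  choose c hc using key'
  refine ⟨c, ?_⟩
  have h1 : ∀ᶠ x in residual (∀ i, A i), ∀ n, φ x n = c n := eventually_countable_forall.2 hc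
  filter_upwards [h1] with x hx
  exact funext hx

end Pool.Agent.Y38.HK
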